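import Mathlib
import Pool.Agent.Helper24_Reg.RegMain
import Pool.Agent.Helper33_RWB.Final

namespace Pool.Agent.Results.MP_7d5a9b_al.BoundedWindow

open Pool.Agent.Helper24Reg

/-- Let `m ≥ 3`.  If `p ≤ mn - m²` or `p ≥ mn - 1`, then `P_n(ℤ/p^m)` is regular if and only if
`p ≥ mn - 1`; and if `p ≤ mn - m²` then no group `P_n(ℤ/p^M)` with `M ≥ m` is regular. -/
theorem result (p m n : ℕ) [Fact p.Prime] (hm : 3 ≤ m) :
    ((p + m ^ 2 ≤ m * n ∨ m * n ≤ p + 1) → (IsRegular p (P p m n) ↔ m * n ≤ p + 1)) ∧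
      (p + m ^ 2 ≤ m * n → ∀ M : ℕ, m ≤ M → ¬ IsRegular p (P p M n)) := by
  have key : p + m ^ 2 ≤ m * n → ∀ M : ℕ, m ≤ M → ¬ IsRegular p (P p M n) := by
    intro h M hM
    refine Pool.Agent.Helper33RWB.not_regular_block p M n m (le_trans hm hM) hM ?_
    rw [Nat.mul_sub, ← pow_two]
    omega
  refine ⟨fun h => ⟨fun hr => ?_, fun h2 => regular_of_le p m n hm h2⟩, key⟩
  rcases h with h | h
  · exact absurd hr (key h m le_rfl)
  · exact h

end Pool.Agent.Results.MP_7d5a9b_al.BoundedWindow
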