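import Mathlib
import Pool.Agent.Helper24_Reg.RegMain

namespace Pool.Agent.Results.MP_7d5a9b_al.CubeExact

open Pool.Agent.Helper24Reg

/-- The case `m = 3`: for a prime `p`, the group `P_n(ℤ/p^3)` is regular if and only if `p ≥ 3n - 1`. -/
theorem result (p n : ℕ) [Fact p.Prime] : IsRegular p (P p 3 n) ↔ 3 * n ≤ p + 1 := by
  refine ⟨fun h => ?_, fun hn => regular_of_le p 3 n le_rfl hn⟩
  by_contra hcon
  exact not_regular_of_le p 3 n le_rfl (by omega) h

end Pool.Agent.Results.MP_7d5a9b_al.CubeExact
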