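import Mathlib
import Pool.Agent.Helper43_Reg2.Final

namespace Pool.Agent.Results.MP_7d5a9b_al.ExactFromTwoN

open Pool.Agent.Helper24Reg

/-- For a prime `p` and any `n`: (1) if `p > n² - n + 1` then `P_n(ℤ/p^m)` is regular for all `m`;
(2) if `r ≤ n`, `2r ≤ m` and `p ≤ n(r-1) + 1` then `P_n(ℤ/p^m)` is not regular; (3) for every
`m ≥ 2n` the group `P_n(ℤ/p^m)` is regular if and only if `p > n² - n + 1`. -/
theorem result (p n : ℕ) [Fact p.Prime] :
    (n ^ 2 + 1 < p + n → ∀ m : ℕ, IsRegular p (P p m n)) ∧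
    (∀ m r : ℕ, r ≤ n → 2 * r ≤ m → p + n ≤ n * r + 1 → ¬ IsRegular p (P p m n)) ∧
    (∀ m : ℕ, 2 * n ≤ m → (IsRegular p (P p m n) ↔ n ^ 2 + 1 < p + n)) := by
  refine ⟨fun h m => Pool.Agent.Helper43Reg.regular_all p n m h,
    fun m r h1 h2 h3 => Pool.Agent.Helper43Reg2.not_regular_two_r p m n r h1 h2 h3, fun m hm => ?_⟩
  refine ⟨fun h => ?_, fun h => Pool.Agent.Helper43Reg.regular_all p n m h⟩
  by_contra hlt
  refine Pool.Agent.Helper43Reg2.not_regular_two_r p m n n le_rfl hm ?_ h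
  rw [sq] at hlt
  omega

end Pool.Agent.Results.MP_7d5a9b_al.ExactFromTwoN
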