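import Mathlib
import Pool.Agent.Helper24_Reg4.Main

namespace Pool.Agent.Results.MP_7d5a9b_al.FourthPower

open Pool.Agent.Helper24Reg Pool.Agent.Helper24Reg4

/-- The case `m = 4`: if `n ≥ 2` and, for even `n`, `p ≠ 4 n - 5` and `p ≠ 4 n - 3`, then
`P_n(ℤ/p^4)` is regular if and only if `p ≥ 4 n - 1`; and if `p ≤ 4 n - 2`, no group
`P_n(ℤ/p^m)` with `m ≥ 4` is regular. -/
theorem result (p n : ℕ) [Fact p.Prime] (hn : 2 ≤ n)
    (he : Even n → p + 5 ≠ 4 * n ∧ p + 3 ≠ 4 * n) :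
    (IsRegular p (P p 4 n) ↔ 4 * n ≤ p + 1) ∧
      (p + 2 ≤ 4 * n → ∀ m : ℕ, 4 ≤ m → ¬ IsRegular p (P p m n)) := by
  refine ⟨⟨fun h => ?_, fun h => regular_of_le p 4 n (by norm_num) h⟩,
    fun h m hm => not_regular_four p m n hm hn he h⟩
  by_contra hcon
  exact not_regular_four p 4 n le_rfl hn he (by omega) h

end Pool.Agent.Results.MP_7d5a9b_al.FourthPower
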